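import Pool.Agent.Q141.Conn.Basic

set_option autoImplicit false
set_option maxRecDepth 100000

/-!
# MP_5fc97f_co, Q1: a connected complex for which the top eigenvalue of `L⁻¹` is not simple
-/

namespace Pool.Agent.Results.MP_5fc97f_co.RingOfTriangles

open Q141.Conn Matrix Module

/-- Three full triangles `012`, `345`, `678`, joined in a ring by the edges `13`, `46`, `70`. -/
def R : Finset (Finset (Fin 9)) :=
  {{0}, {1}, {2}, {3}, {4}, {5}, {6}, {7}, {8},
   {0, 1}, {1, 2}, {0, 2}, {3, 4}, {4, 5}, {3, 5}, {6, 7}, {7, 8}, {6, 8},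
   {1, 3}, {4, 6}, {7, 0},
   {0, 1, 2}, {3, 4, 5}, {6, 7, 8}}

lemma R_complex : IsComplex R := by
  unfold IsComplex
  have h : ∀ s ∈ R, s.Nonempty ∧ ∀ t ∈ s.powerset, t.Nonempty → t ∈ R := by decide +kernel
  intro s hs
  exact ⟨(h s hs).1, fun t ht => (h s hs).2 t (Finset.mem_powerset.2 ht)⟩

lemma sum_R (f : Finset (Fin 9) → ℝ) : ∑ u ∈ R, f u =
    f {0} + f {1} + f {2} + f {3} + f {4} + f {5} + f {6} + f {7} + f {8}
    + f {0, 1} + f {1, 2} + f {0, 2} + f {3, 4} + f {4, 5} + f {3, 5} + f {6, 7} + f {7, 8}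
    + f {6, 8} + f {1, 3} + f {4, 6} + f {7, 0}
    + f {0, 1, 2} + f {3, 4, 5} + f {6, 7, 8} := by
  unfold R
  rw [Finset.sum_insert (by decide), Finset.sum_insert (by decide), Finset.sum_insert (by decide),
    Finset.sum_insert (by decide), Finset.sum_insert (by decide), Finset.sum_insert (by decide),
    Finset.sum_insert (by decide), Finset.sum_insert (by decide), Finset.sum_insert (by decide),
    Finset.sum_insert (by decide), Finset.sum_insert (by decide), Finset.sum_insert (by decide),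
    Finset.sum_insert (by decide), Finset.sum_insert (by decide), Finset.sum_insert (by decide),
    Finset.sum_insert (by decide), Finset.sum_insert (by decide), Finset.sum_insert (by decide),
    Finset.sum_insert (by decide), Finset.sum_insert (by decide), Finset.sum_insert (by decide),
    Finset.sum_insert (by decide), Finset.sum_insert (by decide), Finset.sum_singleton]
  ring

/-- the quadratic form, spelled out -/
lemma quad_R (F : Finset (Fin 9) → ℝ) :
    (fun x : R => F x.1) ⬝ᵥ ((conn R)⁻¹ *ᵥ (fun x : R => F x.1)) =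
      F {0} ^ 2 + F {1} ^ 2 + F {2} ^ 2 + F {3} ^ 2 + F {4} ^ 2 + F {5} ^ 2 + F {6} ^ 2 +
        F {7} ^ 2 + F {8} ^ 2
      - (F {0} + F {1} - F {0, 1}) ^ 2 - (F {1} + F {2} - F {1, 2}) ^ 2
      - (F {0} + F {2} - F {0, 2}) ^ 2 - (F {3} + F {4} - F {3, 4}) ^ 2
      - (F {4} + F {5} - F {4, 5}) ^ 2 - (F {3} + F {5} - F {3, 5}) ^ 2
      - (F {6} + F {7} - F {6, 7}) ^ 2 - (F {7} + F {8} - F {7, 8}) ^ 2
      - (F {6} + F {8} - F {6, 8}) ^ 2 - (F {1} + F {3} - F {1, 3}) ^ 2
      - (F {4} + F {6} - F {4, 6}) ^ 2 - (F {7} + F {0} - F {7, 0}) ^ 2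
      + (F {0} + F {1} + F {2} - F {0, 1} - F {1, 2} - F {0, 2} + F {0, 1, 2}) ^ 2
      + (F {3} + F {4} + F {5} - F {3, 4} - F {4, 5} - F {3, 5} + F {3, 4, 5}) ^ 2
      + (F {6} + F {7} + F {8} - F {6, 7} - F {7, 8} - F {6, 8} + F {6, 7, 8}) ^ 2 := by
  rw [quad R_complex F]
  have f1 : ∀ a ∈ R, a.card = 1 → (R.filter (fun x => x ⊆ a)) = {a} := by decide
  have e1 : R.filter (fun x => x ⊆ {0, 1}) = {{0}, {1}, {0, 1}} := by decide
  have e2 : R.filter (fun x => x ⊆ {1, 2}) = {{1}, {2}, {1, 2}} := by decide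
  have e3 : R.filter (fun x => x ⊆ {0, 2}) = {{0}, {2}, {0, 2}} := by decide
  have e4 : R.filter (fun x => x ⊆ {3, 4}) = {{3}, {4}, {3, 4}} := by decide
  have e5 : R.filter (fun x => x ⊆ {4, 5}) = {{4}, {5}, {4, 5}} := by decide
  have e6 : R.filter (fun x => x ⊆ {3, 5}) = {{3}, {5}, {3, 5}} := by decide
  have e7 : R.filter (fun x => x ⊆ {6, 7}) = {{6}, {7}, {6, 7}} := by decide
  have e8 : R.filter (fun x => x ⊆ {7, 8}) = {{7}, {8}, {7, 8}} := by decide
  have e9 : R.filter (fun x => x ⊆ {6, 8}) = {{6}, {8}, {6, 8}} := by decide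
  have e10 : R.filter (fun x => x ⊆ {1, 3}) = {{1}, {3}, {1, 3}} := by decide
  have e11 : R.filter (fun x => x ⊆ {4, 6}) = {{4}, {6}, {4, 6}} := by decide
  have e12 : R.filter (fun x => x ⊆ {7, 0}) = {{7}, {0}, {7, 0}} := by decide
  have t1 : R.filter (fun x => x ⊆ {0, 1, 2}) =
      {{0}, {1}, {2}, {0, 1}, {1, 2}, {0, 2}, {0, 1, 2}} := by decide
  have t2 : R.filter (fun x => x ⊆ {3, 4, 5}) =
      {{3}, {4}, {5}, {3, 4}, {4, 5}, {3, 5}, {3, 4, 5}} := by decide
  have t3 : R.filter (fun x => x ⊆ {6, 7, 8}) =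
      {{6}, {7}, {8}, {6, 7}, {7, 8}, {6, 8}, {6, 7, 8}} := by decide
  have oc1 : ∀ s : Finset (Fin 9), s.card = 1 → om s = 1 := by
    intro s hs
    simp [om, hs]
  have oc2 : ∀ s : Finset (Fin 9), s.card = 2 → om s = -1 := by
    intro s hs
    simp [om, hs]
    norm_num
  have oc3 : ∀ s : Finset (Fin 9), s.card = 3 → om s = 1 := by
    intro s hs
    simp [om, hs]
    norm_num
  have S3 : ∀ (f : Finset (Fin 9) → ℝ) (a b c : Finset (Fin 9)), a ∉ ({b, c} : Finset _) → b ∉ ({c} : Finset _) →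
      ∑ x ∈ ({a, b, c} : Finset (Finset (Fin 9))), f x = f a + f b + f c := by
    intro f a b c h1 h2
    rw [Finset.sum_insert h1, Finset.sum_insert h2, Finset.sum_singleton]
    ring
  have S7 : ∀ (f : Finset (Fin 9) → ℝ) (a b c d e g h : Finset (Fin 9)),
      a ∉ ({b, c, d, e, g, h} : Finset _) → b ∉ ({c, d, e, g, h} : Finset _) →
      c ∉ ({d, e, g, h} : Finset _) → d ∉ ({e, g, h} : Finset _) → e ∉ ({g, h} : Finset _) →
      g ∉ ({h} : Finset _) →
      ∑ x ∈ ({a, b, c, d, e, g, h} : Finset (Finset (Fin 9))), f x =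
        f a + f b + f c + f d + f e + f g + f h := by
    intro f a b c d e g h h1 h2 h3 h4 h5 h6
    rw [Finset.sum_insert h1, Finset.sum_insert h2, Finset.sum_insert h3, Finset.sum_insert h4,
      Finset.sum_insert h5, Finset.sum_insert h6, Finset.sum_singleton]
    ring
  have hsing : ∀ a ∈ R, a.card = 1 →
      om a * (∑ x ∈ R with x ⊆ a, om x * F x) ^ 2 = F a ^ 2 := by
    intro a ha h1
    rw [f1 a ha h1, Finset.sum_singleton, oc1 a h1]
    ring
  have hedge : ∀ a b c : Finset (Fin 9), R.filter (fun x => x ⊆ c) = {a, b, c} →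
      a ∉ ({b, c} : Finset _) → b ∉ ({c} : Finset _) → a.card = 1 → b.card = 1 → c.card = 2 →
      om c * (∑ x ∈ R with x ⊆ c, om x * F x) ^ 2 = - (F a + F b - F c) ^ 2 := by
    intro a b c h h1 h2 ha hb hc
    rw [h, S3 _ a b c h1 h2, oc1 a ha, oc1 b hb, oc2 c hc]
    ring
  have htri : ∀ a b c d e g h : Finset (Fin 9),
      R.filter (fun x => x ⊆ h) = {a, b, c, d, e, g, h} →
      a ∉ ({b, c, d, e, g, h} : Finset _) → b ∉ ({c, d, e, g, h} : Finset _) →
      c ∉ ({d, e, g, h} : Finset _) → d ∉ ({e, g, h} : Finset _) → e ∉ ({g, h} : Finset _) →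
      g ∉ ({h} : Finset _) → a.card = 1 → b.card = 1 → c.card = 1 → d.card = 2 → e.card = 2 →
      g.card = 2 → h.card = 3 →
      om h * (∑ x ∈ R with x ⊆ h, om x * F x) ^ 2 =
        (F a + F b + F c - F d - F e - F g + F h) ^ 2 := by
    intro a b c d e g h h0 h1 h2 h3 h4 h5 h6 ca cb cc cd ce cg ch
    rw [h0, S7 _ a b c d e g h h1 h2 h3 h4 h5 h6, oc1 a ca, oc1 b cb, oc1 c cc, oc2 d cd, oc2 e ce,
      oc2 g cg, oc3 h ch]
    ring
  rw [sum_R]
  rw [hsing {0} (by decide) rfl, hsing {1} (by decide) rfl, hsing {2} (by decide) rfl,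
    hsing {3} (by decide) rfl, hsing {4} (by decide) rfl, hsing {5} (by decide) rfl,
    hsing {6} (by decide) rfl, hsing {7} (by decide) rfl, hsing {8} (by decide) rfl,
    hedge _ _ _ e1 (by decide) (by decide) rfl rfl rfl,
    hedge _ _ _ e2 (by decide) (by decide) rfl rfl rfl,
    hedge _ _ _ e3 (by decide) (by decide) rfl rfl rfl,
    hedge _ _ _ e4 (by decide) (by decide) rfl rfl rfl,
    hedge _ _ _ e5 (by decide) (by decide) rfl rfl rfl,
    hedge _ _ _ e6 (by decide) (by decide) rfl rfl rfl,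
    hedge _ _ _ e7 (by decide) (by decide) rfl rfl rfl,
    hedge _ _ _ e8 (by decide) (by decide) rfl rfl rfl,
    hedge _ _ _ e9 (by decide) (by decide) rfl rfl rfl,
    hedge _ _ _ e10 (by decide) (by decide) rfl rfl rfl,
    hedge _ _ _ e11 (by decide) (by decide) rfl rfl rfl,
    hedge _ _ _ e12 (by decide) (by decide) rfl rfl rfl,
    htri _ _ _ _ _ _ _ t1 (by decide) (by decide) (by decide) (by decide) (by decide) (by decide)
      rfl rfl rfl rfl rfl rfl rfl,
    htri _ _ _ _ _ _ _ t2 (by decide) (by decide) (by decide) (by decide) (by decide) (by decide)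
      rfl rfl rfl rfl rfl rfl rfl,
    htri _ _ _ _ _ _ _ t3 (by decide) (by decide) (by decide) (by decide) (by decide) (by decide)
      rfl rfl rfl rfl rfl rfl rfl]
  ring


/-- rotation of the vertices -/
def rot : Fin 9 ↪ Fin 9 := ⟨fun v => v + 3, by decide⟩

lemma rot_mem : ∀ s ∈ R, s.map rot ∈ R := by decide +kernel

/-- rotation of the simplices -/
def rotR (s : R) : R := ⟨s.1.map rot, rot_mem s.1 s.2⟩

lemma rotR_inj : Function.Injective rotR := by
  intro a b h
  have h1 : a.1.map rot = b.1.map rot := congrArg Subtype.val h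
  exact Subtype.ext (Finset.map_injective rot h1)

lemma rot_three : ∀ v : Fin 9, rot (rot (rot v)) = v := by decide

lemma rotR_three (s : R) : rotR (rotR (rotR s)) = s := by
  apply Subtype.ext
  change ((s.1.map rot).map rot).map rot = s.1
  ext v
  simp only [Finset.mem_map, exists_exists_and_eq_and]
  constructor
  · rintro ⟨a, ha, rfl⟩
    rw [rot_three]
    exact ha
  · intro hv
    exact ⟨v, hv, rot_three v⟩

/-- rotation as a permutation -/
noncomputable def rotE : R ≃ R := Equiv.ofBijective rotR (Finite.injective_iff_bijective.1 rotR_inj)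

lemma conn_rot (x y : R) : conn R (rotR x) (rotR y) = conn R x y := by
  simp only [conn, Matrix.of_apply, rotR, ← Finset.map_inter, Finset.map_nonempty]

lemma inv_rot (x y : R) : (conn R)⁻¹ (rotR x) (rotR y) = (conn R)⁻¹ x y := by
  have h1 : (conn R).submatrix rotE rotE = conn R := by
    ext x y
    exact conn_rot x y
  have h2 := Matrix.inv_submatrix_equiv (conn R) rotE rotE
  rw [h1] at h2
  conv_rhs => rw [h2]
  rfl

/-- the bound on the rotation-invariant vectors -/
lemma inv_bound (x y z p q r t e : ℝ) :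
    |x ^ 2 + y ^ 2 + z ^ 2 - (x + y - p) ^ 2 - (y + z - q) ^ 2 - (x + z - r) ^ 2
      - (y + x - e) ^ 2 + (x + y + z - p - q - r + t) ^ 2| ≤
      81 / 20 * (x ^ 2 + y ^ 2 + z ^ 2 + p ^ 2 + q ^ 2 + r ^ 2 + t ^ 2 + e ^ 2) := by
  rw [abs_le]
  constructor
  · have h : (x ^ 2 + y ^ 2 + z ^ 2 - (x + y - p) ^ 2 - (y + z - q) ^ 2 - (x + z - r) ^ 2
        - (y + x - e) ^ 2 + (x + y + z - p - q - r + t) ^ 2) +
        81 / 20 * (x ^ 2 + y ^ 2 + z ^ 2 + p ^ 2 + q ^ 2 + r ^ 2 + t ^ 2 + e ^ 2) =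
        (81/20) * (z + (-20/81) * p + (20/81) * t) ^ 2 +
        (81/20) * (q + (20/81) * r + (-20/81) * x + (20/81) * p + (-20/81) * t) ^ 2 +
        (61/20) * (e + (20/61) * y + (20/61) * x) ^ 2 +
        (3321/1220) * (y + (-1220/3321) * r + (-20/41) * x + (1220/3321) * t) ^ 2 +
        (76067/22140) * (r + (-16000/228201) * x + (820/3741) * p + (-140/1247) * t) ^ 2 +
        (669347941/369685620) * (x + (24400/147401) * p + (98820/147401) * t) ^ 2 +
        (797912761/238789620) * (p + (-148660420/797912761) * t) ^ 2 +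
        (51317538461/15958255220) * (t) ^ 2 := by
      ring
    have h2 : 0 ≤ (81/20) * (z + (-20/81) * p + (20/81) * t) ^ 2 +
        (81/20) * (q + (20/81) * r + (-20/81) * x + (20/81) * p + (-20/81) * t) ^ 2 +
        (61/20) * (e + (20/61) * y + (20/61) * x) ^ 2 +
        (3321/1220) * (y + (-1220/3321) * r + (-20/41) * x + (1220/3321) * t) ^ 2 +
        (76067/22140) * (r + (-16000/228201) * x + (820/3741) * p + (-140/1247) * t) ^ 2 +
        (669347941/369685620) * (x + (24400/147401) * p + (98820/147401) * t) ^ 2 +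
        (797912761/238789620) * (p + (-148660420/797912761) * t) ^ 2 +
        (51317538461/15958255220) * (t) ^ 2 := by
      positivity
    linarith
  · have h : 81 / 20 * (x ^ 2 + y ^ 2 + z ^ 2 + p ^ 2 + q ^ 2 + r ^ 2 + t ^ 2 + e ^ 2) -
        (x ^ 2 + y ^ 2 + z ^ 2 - (x + y - p) ^ 2 - (y + z - q) ^ 2 - (x + z - r) ^ 2
        - (y + x - e) ^ 2 + (x + y + z - p - q - r + t) ^ 2) =
        (81/20) * (z + (-20/81) * t + (20/81) * p) ^ 2 +
        (81/20) * (q + (-20/81) * r + (20/81) * t + (20/81) * x + (-20/81) * p) ^ 2 +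
        (101/20) * (e + (-20/101) * y + (-20/101) * x) ^ 2 +
        (9801/2020) * (y + (2020/9801) * r + (-2020/9801) * t + (20/121) * x) ^ 2 +
        (235027/65340) * (r + (940/2327) * t + (16000/705081) * x + (-2420/6981) * p) ^ 2 +
        (6646507/3769740) * (t + (-4201740/6646507) * x + (7530140/6646507) * p) ^ 2 +
        (121650651701/32302024020) * (x + (6384800/15634321) * p) ^ 2 +
        (7350482501/31581328420) * (p) ^ 2 := by
      ring
    have h2 : 0 ≤ (81/20) * (z + (-20/81) * t + (20/81) * p) ^ 2 +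
        (81/20) * (q + (-20/81) * r + (20/81) * t + (20/81) * x + (-20/81) * p) ^ 2 +
        (101/20) * (e + (-20/101) * y + (-20/101) * x) ^ 2 +
        (9801/2020) * (y + (2020/9801) * r + (-2020/9801) * t + (20/121) * x) ^ 2 +
        (235027/65340) * (r + (940/2327) * t + (16000/705081) * x + (-2420/6981) * p) ^ 2 +
        (6646507/3769740) * (t + (-4201740/6646507) * x + (7530140/6646507) * p) ^ 2 +
        (121650651701/32302024020) * (x + (6384800/15634321) * p) ^ 2 +
        (7350482501/31581328420) * (p) ^ 2 := by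
      positivity
    linarith

/-- extension of a vector by zero -/
noncomputable def ex (v : R → ℝ) (s : Finset (Fin 9)) : ℝ := if h : s ∈ R then v ⟨s, h⟩ else 0

lemma ex_val (v : R → ℝ) : (fun x : R => ex v x.1) = v := by
  funext x
  simp [ex]

lemma norm_eq (v : R → ℝ) : v ⬝ᵥ v = ∑ s ∈ R, ex v s ^ 2 := by
  rw [← Finset.sum_coe_sort R (fun s => ex v s ^ 2), dotProduct]
  refine Finset.sum_congr rfl (fun x _ => ?_)
  simp only [ex, x.2, dite_true]
  ring

lemma ex_rot (v : R → ℝ) (hv : ∀ x, v (rotR x) = v x) (s t : Finset (Fin 9)) (hs : s ∈ R)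
    (ht : s.map rot = t) : ex v t = ex v s := by
  subst ht
  have h1 := hv ⟨s, hs⟩
  simp only [ex, hs, rot_mem s hs, dite_true]
  exact h1

lemma eig_bound (v : R → ℝ) (hv : ∀ x, v (rotR x) = v x) (hv0 : v ≠ 0) (l : ℝ)
    (hl : (conn R)⁻¹ *ᵥ v = l • v) : |l| ≤ 81 / 20 := by
  have h1 : l * (v ⬝ᵥ v) = v ⬝ᵥ ((conn R)⁻¹ *ᵥ v) := by
    rw [hl, dotProduct_smul, smul_eq_mul]
  have h2 := quad_R (ex v)
  rw [ex_val] at h2
  have h3 := norm_eq v
  rw [sum_R] at h3
  have r := ex_rot v hv
  rw [r {3} {6} (by decide) (by decide), r {4} {7} (by decide) (by decide),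
    r {5} {8} (by decide) (by decide), r {3, 4} {6, 7} (by decide) (by decide),
    r {4, 5} {7, 8} (by decide) (by decide), r {3, 5} {6, 8} (by decide) (by decide),
    r {4, 6} {7, 0} (by decide) (by decide), r {3, 4, 5} {6, 7, 8} (by decide) (by decide),
    r {0} {3} (by decide) (by decide), r {1} {4} (by decide) (by decide),
    r {2} {5} (by decide) (by decide), r {0, 1} {3, 4} (by decide) (by decide),
    r {1, 2} {4, 5} (by decide) (by decide), r {0, 2} {3, 5} (by decide) (by decide),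
    r {1, 3} {4, 6} (by decide) (by decide), r {0, 1, 2} {3, 4, 5} (by decide) (by decide)] at h2 h3
  have h4 := inv_bound (ex v {0}) (ex v {1}) (ex v {2}) (ex v {0, 1}) (ex v {1, 2}) (ex v {0, 2})
    (ex v {0, 1, 2}) (ex v {1, 3})
  have h5 : 0 < v ⬝ᵥ v := by
    rw [lt_iff_le_and_ne]
    refine ⟨?_, ?_⟩
    · rw [h3]; positivity
    · intro h
      exact hv0 (dotProduct_self_eq_zero.1 h.symm)
  have h6 : |l| * (v ⬝ᵥ v) ≤ 81 / 20 * (v ⬝ᵥ v) := by
    rw [← abs_of_pos h5, ← abs_mul, abs_of_pos h5, h1, h2, h3]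
    rw [abs_le] at h4 ⊢
    constructor <;> nlinarith [h4.1, h4.2]
  exact le_of_mul_le_mul_right h6 h5

/-- the eigenspaces for large eigenvalues are at least two-dimensional -/
lemma two_le (l : ℝ) (hl : End.HasEigenvalue (Matrix.toLin' (conn R)⁻¹) l) (h : 81 / 20 < |l|) :
    2 ≤ finrank ℝ (End.eigenspace (Matrix.toLin' (conn R)⁻¹) l) := by
  by_contra hcon
  have hpos : 0 < finrank ℝ (End.eigenspace (Matrix.toLin' (conn R)⁻¹) l) := by
    rw [finrank_pos_iff, Submodule.nontrivial_iff_ne_bot]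
    exact hl
  have h1 : finrank ℝ (End.eigenspace (Matrix.toLin' (conn R)⁻¹) l) = 1 := by omega
  obtain ⟨⟨v, hvE⟩, hv0, hv⟩ := finrank_eq_one_iff'.1 h1
  have hv0' : v ≠ 0 := fun h0 => hv0 (Subtype.ext h0)
  have hvE2 : (conn R)⁻¹ *ᵥ v = l • v := by
    have := End.mem_eigenspace_iff.1 hvE
    rwa [Matrix.toLin'_apply] at this
  have hrot : (fun x => v (rotR x)) ∈ End.eigenspace (Matrix.toLin' (conn R)⁻¹) l := by
    rw [End.mem_eigenspace_iff, Matrix.toLin'_apply]
    funext x
    have h2 : ((conn R)⁻¹ *ᵥ fun x => v (rotR x)) x = ((conn R)⁻¹ *ᵥ v) (rotR x) := by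
      simp only [Matrix.mulVec, dotProduct]
      rw [← Equiv.sum_comp rotE (fun y => (conn R)⁻¹ (rotR x) y * v y)]
      refine Finset.sum_congr rfl (fun y _ => ?_)
      change _ = (conn R)⁻¹ (rotR x) (rotR y) * v (rotR y)
      rw [inv_rot]
    rw [h2, hvE2]
    rfl
  obtain ⟨c, hc⟩ := hv ⟨_, hrot⟩
  have hc1 : ∀ x, v (rotR x) = c * v x := by
    intro x
    have := congrFun (congrArg Subtype.val hc) x
    exact this.symm
  have hc3 : ∀ x, v x = c ^ 3 * v x := by
    intro x
    conv_lhs => rw [← rotR_three x]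
    rw [hc1, hc1, hc1]
    ring
  obtain ⟨x, hx⟩ : ∃ x, v x ≠ 0 := by
    by_contra hne
    push Not at hne
    exact hv0' (funext hne)
  have hcc : c = 1 := by
    have h3 : (c ^ 3 - 1) * v x = 0 := by
      have := hc3 x
      linarith
    have h4 : c ^ 3 - 1 = 0 := by
      rcases mul_eq_zero.1 h3 with h | h
      · exact h
      · exact absurd h hx
    have h5 : (c - 1) * (c ^ 2 + c + 1) = 0 := by ring_nf; linarith
    rcases mul_eq_zero.1 h5 with h | h
    · linarith
    · nlinarith [sq_nonneg (c + 1 / 2)]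
  subst hcc
  have := eig_bound v (fun x => by rw [hc1, one_mul]) hv0' l hvE2
  linarith

/-- a test vector -/
def wt : Finset (Fin 9) → ℤ := fun s =>
  if s = {0} then 1 else if s = {1} then 1 else if s = {2} then 1 else if s = {3} then 0 else
  if s = {4} then 1 else if s = {5} then 1 else if s = {6} then -2 else if s = {7} then -2 else
  if s = {8} then -2 else if s = {0, 1} then -2 else if s = {1, 2} then -2 else
  if s = {0, 2} then -2 else if s = {3, 4} then -1 else if s = {4, 5} then -1 else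
  if s = {3, 5} then -1 else if s = {6, 7} then 3 else if s = {7, 8} then 3 else
  if s = {6, 8} then 3 else if s = {1, 3} then 0 else if s = {4, 6} then 0 else
  if s = {7, 0} then 0 else if s = {0, 1, 2} then 3 else if s = {3, 4, 5} then 2 else -5

lemma herm : ((conn R)⁻¹).IsHermitian := by
  apply Matrix.IsHermitian.inv
  ext x y
  simp only [Matrix.conjTranspose_apply, conn, Matrix.of_apply, star_trivial]
  rw [Finset.inter_comm]

/-- some eigenvalue is larger than `81/20` -/
lemma exists_large : ∃ l, End.HasEigenvalue (Matrix.toLin' (conn R)⁻¹) l ∧ 81 / 20 < l := by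
  by_contra hcon
  push Not at hcon
  have hA : ((81 / 20 : ℝ) • (1 : Matrix R R ℝ) - (conn R)⁻¹).IsHermitian := by
    apply Matrix.IsHermitian.sub _ herm
    rw [Matrix.IsHermitian, Matrix.conjTranspose_smul, Matrix.conjTranspose_one]
    simp
  have hpsd : ((81 / 20 : ℝ) • (1 : Matrix R R ℝ) - (conn R)⁻¹).PosSemidef := by
    rw [hA.posSemidef_iff_eigenvalues_nonneg]
    intro i
    have h1 := hA.mulVec_eigenvectorBasis i
    set b : R → ℝ := ⇑(hA.eigenvectorBasis i) with hb
    have h2 : (conn R)⁻¹ *ᵥ b = (81 / 20 - hA.eigenvalues i) • b := by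
      rw [Matrix.sub_mulVec, Matrix.smul_mulVec, Matrix.one_mulVec] at h1
      rw [sub_smul, ← h1]
      abel
    have hb0 : b ≠ 0 := by
      intro h0
      have h3 := hA.eigenvectorBasis.orthonormal.ne_zero i
      apply h3
      ext j
      exact congrFun h0 j
    have h3 : End.HasEigenvalue (Matrix.toLin' (conn R)⁻¹) (81 / 20 - hA.eigenvalues i) := by
      apply End.hasEigenvalue_of_hasEigenvector (x := b)
      rw [End.hasEigenvector_iff, End.mem_eigenspace_iff, Matrix.toLin'_apply]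
      exact ⟨h2, hb0⟩
    have h4 := hcon _ h3
    change 0 ≤ hA.eigenvalues i
    linarith
  have h1 := hpsd.dotProduct_mulVec_nonneg (fun x : R => (wt x.1 : ℝ))
  rw [star_trivial, Matrix.sub_mulVec, Matrix.smul_mulVec, Matrix.one_mulVec, dotProduct_sub,
    dotProduct_smul, smul_eq_mul, quad_R (fun s => (wt s : ℝ))] at h1
  have h2 : (fun x : R => (wt x.1 : ℝ)) ⬝ᵥ (fun x : R => (wt x.1 : ℝ)) =
      ∑ s ∈ R, (wt s : ℝ) ^ 2 := by
    rw [← Finset.sum_coe_sort R (fun s => (wt s : ℝ) ^ 2), dotProduct]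
    refine Finset.sum_congr rfl (fun x _ => ?_)
    ring
  rw [h2, sum_R] at h1
  have v1 : wt {0} = 1 := by decide
  have v2 : wt {1} = 1 := by decide
  have v3 : wt {2} = 1 := by decide
  have v4 : wt {3} = 0 := by decide
  have v5 : wt {4} = 1 := by decide
  have v6 : wt {5} = 1 := by decide
  have v7 : wt {6} = -2 := by decide
  have v8 : wt {7} = -2 := by decide
  have v9 : wt {8} = -2 := by decide
  have v10 : wt {0, 1} = -2 := by decide
  have v11 : wt {1, 2} = -2 := by decide
  have v12 : wt {0, 2} = -2 := by decide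
  have v13 : wt {3, 4} = -1 := by decide
  have v14 : wt {4, 5} = -1 := by decide
  have v15 : wt {3, 5} = -1 := by decide
  have v16 : wt {6, 7} = 3 := by decide
  have v17 : wt {7, 8} = 3 := by decide
  have v18 : wt {6, 8} = 3 := by decide
  have v19 : wt {1, 3} = 0 := by decide
  have v20 : wt {4, 6} = 0 := by decide
  have v21 : wt {7, 0} = 0 := by decide
  have v22 : wt {0, 1, 2} = 3 := by decide
  have v23 : wt {3, 4, 5} = 2 := by decide
  have v24 : wt {6, 7, 8} = -5 := by decide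
  simp only [v1, v2, v3, v4, v5, v6, v7, v8, v9, v10, v11, v12, v13, v14, v15, v16, v17, v18, v19,
    v20, v21, v22, v23, v24] at h1
  norm_num at h1

lemma R_conn : IsConn R := by
  have key : ∀ x : R, ∃ z w : R, (x.1 ∩ z.1).Nonempty ∧ (z.1 ∩ w.1).Nonempty ∧
      (w.1 ∩ {0, 1, 2}).Nonempty := by
    decide +kernel
  have step : ∀ x y : R, (x.1 ∩ y.1).Nonempty →
      (SimpleGraph.fromRel fun x y : R => (x.1 ∩ y.1).Nonempty).Reachable x y := by
    intro x y h
    by_cases hxy : x = y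
    · rw [hxy]
    · apply SimpleGraph.Adj.reachable
      rw [SimpleGraph.fromRel_adj]
      exact ⟨hxy, Or.inl h⟩
  have base : ∀ x : R, (SimpleGraph.fromRel fun x y : R => (x.1 ∩ y.1).Nonempty).Reachable x
      ⟨{0, 1, 2}, by decide⟩ := by
    intro x
    obtain ⟨z, w, h1, h2, h3⟩ := key x
    exact ((step _ _ h1).trans (step _ _ h2)).trans (step _ _ h3)
  haveI : Nonempty R := ⟨⟨{0}, by decide⟩⟩
  constructor
  intro x y
  exact (base x).trans (base y).symm

/-- `L⁻¹ v = l v`, where `L` is the connection matrix of `G` -/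
def InEigenspace {V : Type} [DecidableEq V] (G : Finset (Finset V)) (l : ℝ) (v : G → ℝ) : Prop :=
  (conn G)⁻¹ *ᵥ v = fun x => l * v x

/-- `l` is an eigenvalue of `L⁻¹` -/
def IsEigenvalue {V : Type} [DecidableEq V] (G : Finset (Finset V)) (l : ℝ) : Prop :=
  ∃ v : G → ℝ, v ≠ 0 ∧ InEigenspace G l v

/-- `l` is an eigenvalue of the symmetric matrix `L⁻¹` of multiplicity at least two: its
eigenspace contains two linearly independent vectors -/
def IsMultiple {V : Type} [DecidableEq V] (G : Finset (Finset V)) (l : ℝ) : Prop :=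
  ∃ v w : G → ℝ, InEigenspace G l v ∧ InEigenspace G l w ∧
    ∀ a b : ℝ, (∀ x, a * v x + b * w x = 0) → a = 0 ∧ b = 0

lemma isEigenvalue_iff (l : ℝ) :
    IsEigenvalue R l ↔ End.HasEigenvalue (Matrix.toLin' (conn R)⁻¹) l := by
  constructor
  · rintro ⟨v, hv0, hv⟩
    apply End.hasEigenvalue_of_hasEigenvector (x := v)
    rw [End.hasEigenvector_iff, End.mem_eigenspace_iff, Matrix.toLin'_apply]
    exact ⟨hv, hv0⟩
  · intro h
    obtain ⟨v, hv⟩ := h.exists_hasEigenvector
    rw [End.hasEigenvector_iff, End.mem_eigenspace_iff, Matrix.toLin'_apply] at hv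
    exact ⟨v, hv.2, hv.1⟩

lemma isMultiple_of (l : ℝ)
    (h : 2 ≤ finrank ℝ (End.eigenspace (Matrix.toLin' (conn R)⁻¹) l)) : IsMultiple R l := by
  obtain ⟨f, hf⟩ := exists_linearIndependent_of_le_finrank h
  have h0 := hf.map' (End.eigenspace (Matrix.toLin' (conn R)⁻¹) l).subtype
    (Submodule.ker_subtype _)
  refine ⟨(f 0).1, (f 1).1, ?_, ?_, ?_⟩
  · have := (f 0).2
    rw [End.mem_eigenspace_iff, Matrix.toLin'_apply] at this
    exact this
  · have := (f 1).2
    rw [End.mem_eigenspace_iff, Matrix.toLin'_apply] at this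
    exact this
  · intro a b hab
    have h1 := Fintype.linearIndependent_iff.1 h0 ![a, b] (by
      rw [Fin.sum_univ_two]
      funext x
      exact hab x)
    exact ⟨h1 0, h1 1⟩

/-- There is a connected finite abstract simplicial complex for which the largest eigenvalue `μ` of
the inverse `L⁻¹` of its connection matrix has multiplicity at least two. Moreover every
eigenvalue of `L⁻¹` of largest absolute value has multiplicity at least two. -/
theorem result : ∃ (V : Type) (_ : DecidableEq V) (G : Finset (Finset V)),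
    IsComplex G ∧ IsConn G ∧
    (∃ μ : ℝ, IsEigenvalue G μ ∧ (∀ l, IsEigenvalue G l → l ≤ μ) ∧ IsMultiple G μ) ∧
    ∀ μ : ℝ, IsEigenvalue G μ → (∀ l, IsEigenvalue G l → |l| ≤ |μ|) → IsMultiple G μ := by
  refine ⟨Fin 9, inferInstance, R, R_complex, R_conn, ?_, ?_⟩
  · obtain ⟨l, hl, hl2⟩ := exists_large
    have hfin : {l : ℝ | End.HasEigenvalue (Matrix.toLin' (conn R)⁻¹) l}.Finite :=
      End.finite_hasEigenvalue _
    obtain ⟨m, hm, hm2⟩ := Set.exists_max_image _ id hfin ⟨l, hl⟩
    refine ⟨m, (isEigenvalue_iff m).2 hm, fun a ha => hm2 a ((isEigenvalue_iff a).1 ha),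
      isMultiple_of m (two_le m hm ?_)⟩
    have h1 : l ≤ m := hm2 l hl
    exact lt_of_lt_of_le (lt_of_lt_of_le hl2 h1) (le_abs_self m)
  · intro m hm hmax
    obtain ⟨l, hl, hl2⟩ := exists_large
    exact isMultiple_of m (two_le m ((isEigenvalue_iff m).1 hm)
      (lt_of_lt_of_le (lt_of_lt_of_le hl2 (le_abs_self l)) (hmax l ((isEigenvalue_iff l).2 hl))))

end Pool.Agent.Results.MP_5fc97f_co.RingOfTriangles
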